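import Mathlib
import Pool.Agent.N578.LB.Main
import Pool.Agent.N220.ME.Final
import Pool.Agent.W484.CK.NCHomMain

/-!
# The noncommutative standard conjecture of type D: products with the abelian varieties near almost
every point of the space of real Weil polynomials

Let `g i` be positive integers (`i` in a finite set `I`) and `n = ∑ g i`. For a prime power `q` a
point `x` of `ℤ ^ n` gives the polynomials `h_i = X ^ (g i) + ∑ x_(i,k) X ^ k` (`hpoly`) and
`f_i = X ^ (g i) h_i(X + q / X)` (`fpoly`); all Weil `q`-polynomials of degree `2 g i` are of this
form, and `q ∤ tr(h_i) ^ 2` is a weak condition on the point.

**The property** (`NCHomForRankOver E q r f`, starting files) of a family of polynomials `f i`. Let `A`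
be an abelian variety over the field with `Q = q ^ s` elements, isogenous to a product of powers of
abelian varieties coming from the field with `q` elements, with characteristic polynomials `f i` of
Frobenius, and let `Z` be **any** smooth projective variety over the field with `Q` elements such
that the eigenvalues of Frobenius on its cohomology and their conjugates generate a group of rank at
most `r` modulo the numbers with a power in the number field `E`. Let `𝒜` be a smooth proper dg
category whose noncommutative motive with rational coefficients is a direct summand `(Z, e)` of the
one of `Z` (for instance a component of a semiorthogonal decomposition of `perf_dg(Z)`, or the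
perfect complexes over a sheaf of Azumaya algebras on `Z`). Then
`K_0(perf_dg(A) ⊗ 𝒜)_ℚ = ⨁ D j × K_0(𝒜)_ℚ` modulo homological equivalence, for finitely many products
`D j` of divisor classes on `A`, the same holds for the kernels of the Euler pairings, and **the
noncommutative standard conjecture of type D (homological and numerical equivalence coincide) holds
for `perf_dg(A) ⊗ 𝒜` if and only if it holds for `𝒜`.** For a point `Z` it is true.

**The theorem**: for almost every real point `ξ` of `ℝ ^ n` (for the Lebesgue measure), for all
number fields `E` and all `r` smaller than the `g i`, ALL the points `x` with
`|x_(i,k) - q ^ ((g i - k) / 2) ξ_(i,k)| ≤ q ^ η` (and `q ∤ tr(h_i) ^ 2`) have this property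

* for every prime number `p` and `q = p ^ m` with `m` large, and
* for all but at most `C Q ^ β` of the prime powers `q ≤ Q`,

if `n η < 1 / 6` and `β > 5 / 6 + n η` (`HoldsNear`).

In the starting files (`AlmostAllAbelianFactors`) it is proved that the proportion of the families
without the property among all families of Weil polynomials of the degrees `2 g i` is at most
`C q ^ (-1 / 6) log q`, for fixed `E`. That does not give a single real point near which all (or even
one) of the families have the property for infinitely many `q`. The proof combines the sieve for
lattices (`N578/LB`) and the metric theorem (`N220/ME`) of the starting files with the Kunneth formula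
for the Frobenius eigenvectors (`W484/CK`).
-/

set_option autoImplicit false

namespace Pool.Agent.K6.H79.Old.NCAlmostEveryPoint

open Polynomial MeasureTheory Pool.Agent.W484.TB Pool.Agent.W484.CK Pool.Agent.N578.LB
  Pool.Agent.N220.ME

/-- For positive integers `g i` and almost every point `ξ` of `ℝ ^ n`, `n = ∑ g i`, for all number
fields `E` and all `r` smaller than all the `g i`: the property `NCHomForRankOver E q r f` holds
near `ξ` (`HoldsNear`). -/
theorem result {I : Type} [Fintype I] [DecidableEq I] (g : I → ℕ) :
    ∀ᵐ ξ : (Σ i, Fin (g i)) → ℝ, ∀ E : IntermediateField ℚ ℂ, FiniteDimensional ℚ E →
      ∀ r : ℕ, (∀ i, r < g i) → HoldsNear g (fun q f => NCHomForRankOver E q r f) ξ :=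
  allFields g (fun E r q f => NCHomForRankOver E q r f) fun E hE r hr =>
    inAllLattices (splitPrimes E) (dense_splitPrimes E) g
      (fun i => (Nat.zero_le r).trans_lt (hr i)) _
      fun _ hq x hx => ncHomForRankOver_of_good g E hq.one_lt r hr x hx

end Pool.Agent.K6.H79.Old.NCAlmostEveryPoint
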